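import Pool.Agent.H30.SY.Stm4

/-!
# The cluster lies in a ball
-/

set_option autoImplicit false

open MeasureTheory ProbabilityTheory Finset Filter
open scoped Topology Pointwise

namespace Pool.Agent.H30.SY

open Q70.Fp

theorem t_BOX : S_BOX := by
  intro t ht
  set m : ℕ := ⌈t⌉₊ with hm
  have h1 : t ≤ (m:ℝ) := Nat.le_ceil t
  have h2 : (m:ℝ) < t + 1 := Nat.ceil_lt_add_one (by linarith)
  have hsub : {w : Ed → ℝ | ∃ v : ℤ × ℤ, 132 * t < (dd 0 v : ℝ) ∧ TT (pw w) 0 v ≤ t} ⊆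
      {w | Bad (pw w) 0 (66 * m + 1) (3 * (m:ℝ))} := by
    rintro w ⟨v, hv, hw⟩
    have h3 : TT (pw w) 0 v < 3 * (m:ℝ) := by linarith
    obtain ⟨n, p, hp, hlt⟩ := exists_lt h3
    have h4 : 66 * m < dd 0 v := by
      have : (66:ℝ) * m < dd 0 v := by linarith
      exact_mod_cast this
    obtain ⟨q, k1, k2, k3, k4⟩ := bad_of_exit (pw_nonneg w) hp (R := 66 * m) (k := n) le_rfl
      (by rw [hp.2.1]; exact h4)
    exact ⟨q, k1, k2, k3, k4.trans hlt.le⟩
  exact (measureReal_mono hsub (measure_ne_top _ _)).trans (bad_le 0 (by omega))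

end Pool.Agent.H30.SY
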