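import Pool.Agent.H30.SY.Stm

/-!
# Reversal of walks and measurability
-/

set_option autoImplicit false

open MeasureTheory ProbabilityTheory Finset Filter
open scoped Topology Pointwise

namespace Pool.Agent.H30.SY

open Q70.Fp

lemma rev_walk {x y : ℤ × ℤ} {n : ℕ} {p : ℕ → ℤ × ℤ} (w : Ed → ℝ) (h : IsW x y n p) :
    IsW y x n (fun i => p (n - i)) ∧ Wt w (fun i => p (n - i)) n = Wt w p n := by
  obtain ⟨h0, h1, h2⟩ := h
  refine ⟨⟨by simpa using h1, by simpa using h0, fun i hi => ?_⟩, ?_⟩
  · have h3 := h2 (n - (i + 1)) (by omega)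
    rw [show n - (i + 1) + 1 = n - i by omega, adj_iff, dd_comm] at h3
    exact adj_iff.2 h3
  · unfold Wt
    rw [← Finset.sum_range_reflect]
    refine Finset.sum_congr rfl fun i hi => ?_
    rw [Finset.mem_range] at hi
    beta_reduce
    rw [show n - (n - 1 - i) = i + 1 by omega, show n - (n - 1 - i + 1) = i by omega, Sym2.eq_swap]

theorem t_REV : S_REV := by
  intro w x y
  unfold TT
  congr 1
  ext s
  constructor
  · rintro ⟨n, p, hp, rfl⟩
    exact ⟨n, _, (rev_walk w hp).1, (rev_walk w hp).2.symm⟩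
  · rintro ⟨n, p, hp, rfl⟩
    exact ⟨n, _, (rev_walk w hp).1, (rev_walk w hp).2.symm⟩

theorem t_MSB : S_MSB := by
  intro t r
  have : {w : Ed → ℝ | SB (pw w) t r} = ⋃ v : ℤ × ℤ, ({w : Ed → ℝ | TT (pw w) 0 v ≤ t} ∩
      ⋂ y : ℤ × ℤ, ({w : Ed → ℝ | t < TT (pw w) 0 y} ∪ {_w : Ed → ℝ | r < (dd 0 (y + v) : ℝ)})) := by
    ext w
    simp only [SB, Set.mem_ofPred_eq, Set.mem_iUnion, Set.mem_inter_iff, Set.mem_iInter,
      Set.mem_union]
    refine exists_congr fun v => and_congr_right fun _ => forall_congr' fun y => ?_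
    constructor
    · intro h
      by_cases h1 : TT (pw w) 0 y ≤ t
      · exact Or.inr (h h1)
      · exact Or.inl (not_le.1 h1)
    · rintro (h | h) h1
      · exact absurd h1 (not_le.2 h)
      · exact h
  rw [this]
  refine MeasurableSet.iUnion fun v => ?_
  refine (measurableSet_le (measurable_TT 0 v) measurable_const).inter ?_
  refine MeasurableSet.iInter fun y => ?_
  exact (measurableSet_lt measurable_const (measurable_TT 0 y)).union (MeasurableSet.const _)

end Pool.Agent.H30.SY
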