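import Pool.Agent.H30.SY.Stm2
import Pool.Agent.H42.SY.FUB
import Pool.Agent.H59.SY.FAR

/-!
# A chain of translates for sets
-/

set_option autoImplicit false

open MeasureTheory ProbabilityTheory Finset Filter
open scoped Topology Pointwise

namespace Pool.Agent.H30.SY

open Q70.Fp

theorem t_SETC (hREV : S_REV) : S_SETC := by
  intro v hv A hA δ hδ hmed
  set a : ℕ → (Ed → ℝ) → ℝ := fun j w => TT (pw w) ((j : ℤ) • v) (((j : ℤ) + 1) • v) with ha
  set B : ℕ → Set (Ed → ℝ) := fun j => {w | a j w ∈ A j} with hB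
  have a0 : ∀ w, a 0 w = TT (pw w) 0 v := by
    intro w
    rw [ha]
    simp
  have a133 : ∀ w, a 133 w = TT (pw w) ((133 : ℤ) • v) ((134 : ℤ) • v) := by
    intro w
    rw [ha]
    norm_num
  have hstep : ∀ j < 133, nu.real {w | w ∈ B j ∧ w ∉ B (j + 1)} ≤ δ := by
    intro j hj
    refine le_trans (le_of_eq ?_) (hδ j hj)
    set c : ℤ × ℤ := ((j : ℤ) + 1) • v with hc
    have hm : Measurable (sh c) := measurable_pi_lambda _ fun e => measurable_pi_apply _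
    have hE0m : MeasurableSet {w : Ed → ℝ | TT (pw w) 0 (-v) ∈ A j ∧ TT (pw w) 0 v ∉ A (j + 1)} :=
      ((measurable_TT 0 (-v)) (hA j)).inter ((measurable_TT 0 v) (hA (j + 1))).compl
    have e1 := map_measureReal_apply (μ := nu) hm hE0m
    rw [map_sh] at e1
    rw [e1]
    congr 1
    ext w
    have h1 : a (j + 1) w = TT (pw w) (0 + c) (v + c) := by
      rw [ha, hc, zero_add]
      simp only
      congr 1
      push_cast
      rw [add_smul ((j : ℤ) + 1) 1 v, one_smul, add_comm]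
    have h2 : a j w = TT (pw w) (0 + c) (-v + c) := by
      have h3 : -v + c = (j : ℤ) • v := by
        rw [hc, add_smul, one_smul]
        abel
      rw [h3, zero_add, hREV]
    show (a j w ∈ A j ∧ a (j + 1) w ∉ A (j + 1)) ↔
      (TT (pw (sh c w)) 0 (-v) ∈ A j ∧ TT (pw (sh c w)) 0 v ∉ A (j + 1))
    rw [TT_sh, TT_sh, h1, h2]
  have hsub : B 0 ⊆ (⋃ j ∈ range 133, {w | w ∈ B j ∧ w ∉ B (j + 1)}) ∪ (B 0 ∩ B 133) := by
    intro w hw
    by_cases h : w ∈ ⋃ j ∈ range 133, {w | w ∈ B j ∧ w ∉ B (j + 1)}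
    · exact Or.inl h
    · right
      simp only [Set.mem_iUnion, not_exists] at h
      have h1 : ∀ j, j ≤ 133 → w ∈ B j := by
        intro j
        induction j with
        | zero => exact fun _ => hw
        | succ j ih =>
          intro hj
          by_contra hcon
          exact h j (Finset.mem_range.2 (by omega)) ⟨ih (by omega), hcon⟩
      exact ⟨hw, h1 133 le_rfl⟩
  obtain ⟨n, hn⟩ : ∃ n, n = dd 0 v := ⟨_, rfl⟩
  have hn1 : 1 ≤ n := by
    rcases Nat.eq_zero_or_pos n with h | h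
    · exact absurd (dd_eq_zero (by rw [← hn]; exact h)).symm hv
    · exact h
  obtain ⟨X, hX⟩ : ∃ X : (Ed → ℝ) → ℝ, X = fun w => TB (pw w) (66 * n) 0 v := ⟨_, rfl⟩
  obtain ⟨Y, hY⟩ : ∃ Y : (Ed → ℝ) → ℝ, Y = fun w => TB (pw w) (66 * n) ((133:ℤ) • v) ((134:ℤ) • v) :=
    ⟨_, rfl⟩
  have hdisj : Disjoint (be (66 * n) 0) (be (66 * n) ((133:ℤ) • v)) :=
    be_disj (by rw [Pool.Agent.H59.SY.dd_far, ← hn]; omega)
  have hind : IndepFun X Y nu := Pool.Agent.H42.SY.indep_disj _ _ hdisj (by rw [hX]; exact measurable_TB _ _ _)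
    (by rw [hY]; exact measurable_TB _ _ _) (fun w w' h => by rw [hX]; exact TB_dep h)
    (fun w w' h => by rw [hY]; exact TB_dep h)
  have l1 : nu.real {w : Ed → ℝ | TT (pw w) 0 v ≠ X w} ≤ 2 * (1 / 2) ^ n := by
    rw [hX]
    exact Pool.Agent.H59.SY.loc 0 v (by rw [hn])
  have l2 : nu.real {w : Ed → ℝ | TT (pw w) ((133:ℤ) • v) ((134:ℤ) • v) ≠ Y w} ≤ 2 * (1 / 2) ^ n := by
    rw [hY]
    exact Pool.Agent.H59.SY.loc _ _ (by rw [Pool.Agent.H59.SY.dd_smul, hn])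
  have q0 : nu.real (B 0) = nu.real {w | TT (pw w) 0 v ∈ A 0} := by
    congr 1
    ext w
    show a 0 w ∈ A 0 ↔ TT (pw w) 0 v ∈ A 0
    rw [a0]
  have p1 : nu.real (X ⁻¹' A 0) ≤ nu.real (B 0) + 2 * (1 / 2) ^ n := by
    have h1 : X ⁻¹' A 0 ⊆ B 0 ∪ {w : Ed → ℝ | TT (pw w) 0 v ≠ X w} := by
      intro w hw
      by_cases h : TT (pw w) 0 v = X w
      · left
        show a 0 w ∈ A 0
        rw [a0, h]
        exact hw
      · exact Or.inr h
    exact (measureReal_mono h1 (measure_ne_top _ _)).trans ((measureReal_union_le _ _).trans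
      (by linarith))
  have p2 : nu.real (Y ⁻¹' A 133) ≤ 1 / 2 + 2 * (1 / 2) ^ n := by
    have h1 : Y ⁻¹' A 133 ⊆ {w | TT (pw w) ((133:ℤ) • v) ((134:ℤ) • v) ∈ A 133} ∪
        {w : Ed → ℝ | TT (pw w) ((133:ℤ) • v) ((134:ℤ) • v) ≠ Y w} := by
      intro w hw
      by_cases h : TT (pw w) ((133:ℤ) • v) ((134:ℤ) • v) = Y w
      · left
        show TT (pw w) ((133:ℤ) • v) ((134:ℤ) • v) ∈ A 133
        rw [h]
        exact hw
      · exact Or.inr h
    have h2 : nu.real {w | TT (pw w) ((133:ℤ) • v) ((134:ℤ) • v) ∈ A 133} =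
        nu.real {w | TT (pw w) 0 v ∈ A 133} := by
      rw [nu_TT_sh _ _ (hA 133), ← sub_smul]
      norm_num
    exact (measureReal_mono h1 (measure_ne_top _ _)).trans ((measureReal_union_le _ _).trans
      (by linarith))
  have p3 : nu.real (B 0 ∩ B 133) ≤ nu.real (X ⁻¹' A 0) * nu.real (Y ⁻¹' A 133) +
      (2 * (1 / 2) ^ n + 2 * (1 / 2) ^ n) := by
    have h1 : B 0 ∩ B 133 ⊆ (X ⁻¹' A 0 ∩ Y ⁻¹' A 133) ∪ ({w : Ed → ℝ | TT (pw w) 0 v ≠ X w} ∪
        {w : Ed → ℝ | TT (pw w) ((133:ℤ) • v) ((134:ℤ) • v) ≠ Y w}) := by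
      rintro w ⟨hw0, hw1⟩
      have hw0' : a 0 w ∈ A 0 := hw0
      have hw1' : a 133 w ∈ A 133 := hw1
      rw [a0] at hw0'
      rw [a133] at hw1'
      by_cases h : TT (pw w) 0 v = X w
      · by_cases h' : TT (pw w) ((133:ℤ) • v) ((134:ℤ) • v) = Y w
        · left
          rw [h] at hw0'
          rw [h'] at hw1'
          exact ⟨hw0', hw1'⟩
        · exact Or.inr (Or.inr h')
      · exact Or.inr (Or.inl h)
    have h2 : nu.real (X ⁻¹' A 0 ∩ Y ⁻¹' A 133) = nu.real (X ⁻¹' A 0) * nu.real (Y ⁻¹' A 133) := by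
      rw [measureReal_def, measureReal_def, measureReal_def,
        hind.measure_inter_preimage_eq_mul _ _ (hA 0) (hA 133), ENNReal.toReal_mul]
    refine (measureReal_mono h1 (measure_ne_top _ _)).trans ((measureReal_union_le _ _).trans ?_)
    rw [h2]
    have h3 := measureReal_union_le (μ := nu) {w : Ed → ℝ | TT (pw w) 0 v ≠ X w}
      {w : Ed → ℝ | TT (pw w) ((133:ℤ) • v) ((134:ℤ) • v) ≠ Y w}
    linarith
  have p4 : nu.real (⋃ j ∈ range 133, {w | w ∈ B j ∧ w ∉ B (j + 1)}) ≤ 133 * δ := by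
    calc nu.real (⋃ j ∈ range 133, {w | w ∈ B j ∧ w ∉ B (j + 1)})
        ≤ ∑ j ∈ range 133, nu.real {w | w ∈ B j ∧ w ∉ B (j + 1)} := measureReal_biUnion_finset_le _ _
      _ ≤ ∑ j ∈ range 133, δ := sum_le_sum fun j hj => hstep j (Finset.mem_range.1 hj)
      _ = 133 * δ := by
          rw [sum_const, card_range, nsmul_eq_mul]
          norm_num
  have p5 : nu.real (B 0) ≤ 133 * δ + nu.real (B 0 ∩ B 133) :=
    (measureReal_mono hsub (measure_ne_top _ _)).trans ((measureReal_union_le _ _).trans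
      (by linarith))
  rw [← q0, ← hn]
  have e0 : (0:ℝ) < (1 / 2) ^ n := by positivity
  have e1 : ((1:ℝ) / 2) ^ n ≤ 1 / 2 := by
    calc ((1:ℝ) / 2) ^ n ≤ (1 / 2) ^ 1 := pow_le_pow_of_le_one (by norm_num) (by norm_num) hn1
      _ = 1 / 2 := pow_one _
  have hp1 : nu.real (B 0) ≤ 1 := measureReal_le_one
  have hp0 : 0 ≤ nu.real (B 0) := measureReal_nonneg
  have hx0 : 0 ≤ nu.real (X ⁻¹' A 0) := measureReal_nonneg
  have p6 : nu.real (X ⁻¹' A 0) * nu.real (Y ⁻¹' A 133) ≤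
      (nu.real (B 0) + 2 * (1 / 2) ^ n) * (1 / 2 + 2 * (1 / 2) ^ n) :=
    mul_le_mul p1 p2 measureReal_nonneg (by linarith)
  have p7 : nu.real (B 0) * (1 / 2) ^ n ≤ (1 / 2) ^ n := by nlinarith
  have p8 : ((1:ℝ) / 2) ^ n * (1 / 2) ^ n ≤ (1 / 2) * (1 / 2) ^ n := by nlinarith
  nlinarith

end Pool.Agent.H30.SY
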