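import Pool.Agent.H69.FP.H

/-!
# First-passage percolation: statements about differences of passage times
-/

set_option autoImplicit false

open MeasureTheory ProbabilityTheory Finset Filter
open scoped Topology Pointwise

namespace Pool.Agent.H30.SY

open Q70.Fp

/-- closeness of `T(0, v)` and `T(0, -v)` with a slow rate -/
def Df (b : ℝ) : Prop := ∀ ζ : ℝ, 0 < ζ → ∃ C : ℝ, ∀ v : ℤ × ℤ, v ≠ 0 →
  nu.real {w : Ed → ℝ | (dd 0 v : ℝ) ^ (b + ζ) < |TT (pw w) 0 v - TT (pw w) 0 (-v)|} ≤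
    C * (dd 0 v : ℝ) ^ (-(2 * (1 - b)) + ζ)

/-- closeness of `T(0, 2 v)` and `2 T(0, v)` with a slow rate -/
def Db (b : ℝ) : Prop := ∀ ζ : ℝ, 0 < ζ → ∃ C : ℝ, ∀ v : ℤ × ℤ, v ≠ 0 →
  nu.real {w : Ed → ℝ | (dd 0 v : ℝ) ^ (b + ζ) < |TT (pw w) 0 (v + v) - 2 * TT (pw w) 0 v|} ≤
    C * (dd 0 v : ℝ) ^ (-(2 * (1 - b)) + ζ)

/-- closeness of `T(0, v)` to the numbers `m v` with a slow rate -/
def Cc (m : ℤ × ℤ → ℝ) (b : ℝ) : Prop := ∀ ζ : ℝ, 0 < ζ → ∃ C : ℝ, ∀ v : ℤ × ℤ, v ≠ 0 →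
  nu.real {w : Ed → ℝ | (dd 0 v : ℝ) ^ (b + ζ) < |TT (pw w) 0 v - m v|} ≤
    C * (dd 0 v : ℝ) ^ (-(2 * (1 - b)) + ζ)

/-- closeness of `T(0, v)` to some numbers -/
def Cn (b : ℝ) : Prop := ∀ ζ : ℝ, 0 < ζ → ∃ m : ℤ × ℤ → ℝ, ∃ C : ℝ, ∀ v : ℤ × ℤ, v ≠ 0 →
  nu.real {w : Ed → ℝ | (dd 0 v : ℝ) ^ (b + ζ) < |TT (pw w) 0 v - m v|} ≤
    C * (dd 0 v : ℝ) ^ (-(2 * (1 - b)) + ζ)

/-- some vertex reached by time `t` has no vertex reached by time `t` within `r` of its antipode -/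
def SB (w : Ed → ℝ) (t r : ℝ) : Prop := ∃ v : ℤ × ℤ, TT w 0 v ≤ t ∧
  ∀ y : ℤ × ℤ, TT w 0 y ≤ t → r < (dd 0 (y + v) : ℝ)

/-- the cluster is nearly symmetric with a slow rate -/
def Sy (b : ℝ) : Prop := ∀ ζ : ℝ, 0 < ζ → ζ < 1 - b → ∃ C : ℝ, ∀ᶠ t : ℝ in atTop,
  nu.real {w : Ed → ℝ | SB (pw w) t (t ^ (b + ζ))} ≤ C * t ^ (-(3 * (1 - b)) + ζ)

/-- 1. reversal of walks -/
def S_REV : Prop := ∀ (w : Ed → ℝ) (x y : ℤ × ℤ), TT w x y = TT w y x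

/-- 2. symmetrisation -/
def S_FUB : Prop := ∀ (S T : Finset Ed) (f g : (Ed → ℝ) → ℝ), Disjoint S T →
  Measurable f → Measurable g →
  (∀ w w', (∀ e ∈ S, w e = w' e) → f w = f w') → (∀ w w', (∀ e ∈ T, w e = w' e) → g w = g w') →
  ∀ s : ℝ, ∃ c : ℝ, nu.real {w | s < |f w - c|} ≤ nu.real {w | s < |f w - g w|}

/-- 3. far passage times are nearly independent (uses `S_FUB`) -/
def S_FAR : Prop := ∀ v : ℤ × ℤ, v ≠ 0 → ∀ s : ℝ, 0 ≤ s → ∃ c : ℝ,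
  nu.real {w | s < |TT (pw w) 0 v - c|} ≤
    nu.real {w | s < |TT (pw w) 0 v - TT (pw w) ((133:ℤ) • v) ((134:ℤ) • v)|} +
      6 * (1 / 2) ^ dd 0 v

/-- 4. a chain of translates (uses `S_REV`) -/
def S_SUM : Prop := ∀ (v : ℤ × ℤ) (s : ℝ), 0 ≤ s →
  nu.real {w | 133 * s < |TT (pw w) 0 v - TT (pw w) ((133:ℤ) • v) ((134:ℤ) • v)|} ≤
    133 * nu.real {w | s < |TT (pw w) 0 v - TT (pw w) 0 (-v)|}

/-- 5. symmetry gives concentration (uses `S_FAR`, `S_SUM`) -/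
def S_CHAIN : Prop := ∀ b : ℝ, 0 < b → b < 1 → Df b → Cn b

/-- 6. doubling gives concentration -/
def S_DBL : Prop := ∀ (μ : ℝ × ℝ → ℝ) (b : ℝ), Shape μ → 0 < b → b < 1 → Db b → Cn b

/-- 7. the time constant is even (uses `S_REV`) -/
def S_EVEN : Prop := ∀ (μ : ℝ × ℝ → ℝ), Shape μ → ∀ x : ℝ × ℝ, μ (-x) = μ x

/-- 8. concentration about the time constant gives symmetry and doubling (uses `S_EVEN`) -/
def S_CD : Prop := ∀ (μ : ℝ × ℝ → ℝ) (b : ℝ), Shape μ → 0 < b → b < 1 → Cc (mz μ) b → Df b ∧ Db b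

/-- 9. symmetric clusters give symmetric passage times -/
def S_MESH : Prop := ∀ b : ℝ, 0 < b → b < 1 → Sy b → Df b

/-- 10. a cluster near the limit shape is symmetric (deterministic; uses `S_EVEN`) -/
def S_GEO : Prop := ∀ (μ : ℝ × ℝ → ℝ), Shape μ → ∀ (w : Ed → ℝ) (t r : ℝ), 0 < t → 0 < r → r ≤ 1 →
  {x : ℝ × ℝ | ∃ v : ℤ × ℤ, TT w 0 v ≤ t ∧ |x.1 - (v.1 : ℝ)| ≤ 1 / 2 ∧
    |x.2 - (v.2 : ℝ)| ≤ 1 / 2} ⊆ ((1 + r) * t) • {x : ℝ × ℝ | μ x ≤ 1} →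
  ((1 - r) * t) • {x : ℝ × ℝ | μ x ≤ 1} ⊆ {x : ℝ × ℝ | ∃ v : ℤ × ℤ, TT w 0 v ≤ t ∧
    |x.1 - (v.1 : ℝ)| ≤ 1 / 2 ∧ |x.2 - (v.2 : ℝ)| ≤ 1 / 2} →
  ¬ SB w t (1 + 88 * (r * t))

/-- 11. measurability of the asymmetry event -/
def S_MSB : Prop := ∀ t r : ℝ, MeasurableSet {w : Ed → ℝ | SB (pw w) t r}

end Pool.Agent.H30.SY
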