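import Pool.Agent.H30.SY.Stm

/-!
# First-passage percolation: statements about symmetric clusters, second part
-/

set_option autoImplicit false

open MeasureTheory ProbabilityTheory Finset Filter
open scoped Topology Pointwise

namespace Pool.Agent.H30.SY

open Q70.Fp

/-- the cluster is nearly symmetric with a slow rate (better rate than in `Sy`) -/
def Sy2 (b : ℝ) : Prop := ∀ ζ : ℝ, 0 < ζ → ζ < 1 - b → ∃ C : ℝ, ∀ᶠ t : ℝ in atTop,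
  nu.real {w : Ed → ℝ | SB (pw w) t (t ^ (b + ζ))} ≤ C * t ^ (-(2 * (1 - b)) + ζ)

/-- 12. a chain of translates for sets (uses `S_REV`).  Proof: `B i = {T(i v, (i+1) v) ∈ A i}`;
`B 0` is contained in `B 133` and the 133 events `B i ∖ B (i+1)`, each of probability `≤ δ` by the
shift by `(i+1) v` and `S_REV` (`T(i v, (i+1) v) = T((i+1) v, i v)`, which is `T(0, -v)` after the
shift).  Localise `T(0, v)` and `T(133 v, 134 v)` to `X`, `Y` (`TB` with radius `66 n`, `local_le`,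
`TT_le_TB`), independent by `be_disj`, `TB_dep` (`integral_mul_disj` with indicators), so
`P(B 0 ∩ B 133) ≤ P(X ∈ A 0) P(Y ∈ A 133) + 4/2^n ≤ (P(B 0) + 2/2^n) (1/2 + 2/2^n) + 4/2^n
≤ P(B 0)/2 + 9/2^n`. -/
def S_SETC : Prop := ∀ v : ℤ × ℤ, v ≠ 0 → ∀ A : ℕ → Set ℝ, (∀ i, MeasurableSet (A i)) →
  ∀ δ : ℝ, (∀ i < 133, nu.real {w | TT (pw w) 0 (-v) ∈ A i ∧ TT (pw w) 0 v ∉ A (i + 1)} ≤ δ) →
  nu.real {w | TT (pw w) 0 v ∈ A 133} ≤ 1 / 2 →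
  nu.real {w | TT (pw w) 0 v ∈ A 0} ≤ 266 * δ + 18 * (1 / 2) ^ dd 0 v

/-- 13. one step.  Proof: if `T(0, -v) ≤ t` and not `SB t r`, there is `y` with `T(0, y) ≤ t` and
`dd 0 (y - v) ≤ r ≤ R`, so `T(0, v) ≤ t + T(y, v)`; by `straight` and a union over `ball R v`
(card `≤ (2R+1)^2`) some `T(y, v)`, `dd y v ≤ R`, is `≥ 3 R` with probability
`≤ (2R+1)^2 (1/2)^R`. -/
def S_ONE : Prop := ∀ (v : ℤ × ℤ) (t r : ℝ) (R : ℕ), r ≤ R →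
  nu.real {w | TT (pw w) 0 (-v) ≤ t ∧ t + 3 * (R:ℝ) < TT (pw w) 0 v} ≤
    nu.real {w | SB (pw w) t r} + (2 * (R:ℝ) + 1) ^ 2 * (1 / 2) ^ R

/-- 14. medians.  Proof: `c = sInf {x | 1/2 ≤ P(T(0,v) ≤ x)}` (or through `cdf`); the bounds by
`low_le` (`m = dd 0 v / 66 ≥ 2`) and `straight`. -/
def S_MED : Prop := ∀ v : ℤ × ℤ, 132 ≤ dd 0 v → ∃ c : ℝ,
  3 * ((dd 0 v / 66 : ℕ) : ℝ) ≤ c ∧ c ≤ 3 * (dd 0 v : ℝ) ∧
  nu.real {w | TT (pw w) 0 v < c} ≤ 1 / 2 ∧ nu.real {w | c < TT (pw w) 0 v} ≤ 1 / 2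

/-- 15. symmetric clusters give concentration (uses `S_SETC`, `S_ONE`, `S_MED`).  Proof: for
`ζ0 = min ζ ((1-b)/2)` use `Sy2` at `ζ' = ζ0 / 3`; `n = dd 0 v` large, `R = ⌈(4 n)^(b+ζ')⌉₊`,
`c` the median of `S_MED`.  Lower side: `S_SETC` with `A i = Iic (c - (134 - i) * 3 R)`; the event
`T(0,-v) ∈ A i, T(0,v) ∉ A (i+1)` has probability at most `nu.real (SB a_i (a_i^(b+ζ'))) + (2R+1)^2/2^R`
by `S_ONE` at `t = a_i = c - (134 - i) * 3 R`, which lies in `[n/50, 4n]`, so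
`≤ C (n/50)^(-2(1-b)+ζ') + exp. small =: δ`.  Upper side: `A i = Ioi (c + (134 - i) * 3 R)`; the event
`T(0,-v) > b_i, T(0,v) ≤ b_(i+1)` is bounded by `S_ONE` for `-v` at `t = b_(i+1)`.  So
`P(|T - c| > 134 * 3 R) ≤ 2 (266 δ + 18/2^n)` and `402 R ≤ n^(b+ζ0)` for large `n`; `of_ev` for small
`n`, with `q = 2(1-b) - ζ0 > 0`. -/
def S_SYM2 : Prop := ∀ b : ℝ, 0 < b → b < 1 → Sy2 b → Cn b

end Pool.Agent.H30.SY
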