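import Pool.Agent.H30.SY.Stm

/-!
# First-passage percolation: statements about the clusters at the times `t` and `2 t`
-/

set_option autoImplicit false

open MeasureTheory ProbabilityTheory Finset Filter
open scoped Topology Pointwise

namespace Pool.Agent.H30.SY

open Q70.Fp

/-- the cluster at time `2 t` is not within `r` of the doubled cluster at time `t` -/
def DC (w : Ed → ℝ) (t r : ℝ) : Prop :=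
  (∃ v : ℤ × ℤ, TT w 0 v ≤ t ∧ ∀ y : ℤ × ℤ, TT w 0 y ≤ 2 * t → r < (dd 0 (y - (v + v)) : ℝ)) ∨
  (∃ y : ℤ × ℤ, TT w 0 y ≤ 2 * t ∧ ∀ v : ℤ × ℤ, TT w 0 v ≤ t → r < (dd 0 (y - (v + v)) : ℝ))

/-- the cluster at time `2 t` is nearly the doubled cluster at time `t`, with a slow rate -/
def Dk (b : ℝ) : Prop := ∀ ζ : ℝ, 0 < ζ → ζ < 1 - b → ∃ C : ℝ, ∀ᶠ t : ℝ in atTop,
  nu.real {w : Ed → ℝ | DC (pw w) t (t ^ (b + ζ))} ≤ C * t ^ (-(2 * (1 - b)) + ζ)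

/-- 16. measurability -/
def S_MDC : Prop := ∀ t r : ℝ, MeasurableSet {w : Ed → ℝ | DC (pw w) t r}

/-- 17. one step up and one step down.  Proof: as `S_ONE` in `Stm2`: if `T(0,u) ≤ t` and not `DC t r`,
there is `y` with `T(0,y) ≤ 2 t` and `dd 0 (y - 2 u) ≤ r ≤ R`, and `T(0,2u) ≤ 2 t + T(y,2u)`; if
`T(0,2u) ≤ 2 t` and not `DC t r`, there is `x` with `T(0,x) ≤ t`, `dd 0 (2u - 2x) ≤ R`, so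
`dd x u ≤ R`, `T(0,u) ≤ t + T(x,u)`.  Some `T(y, z)`, `y` in the ball of radius `R` about `z`, is
`≥ 3 R` with probability `≤ (2R+1)^2 (1/2)^R` by `straight`. -/
def S_ONE2 : Prop := ∀ (u : ℤ × ℤ) (t r : ℝ) (R : ℕ), r ≤ R →
  nu.real {w | TT (pw w) 0 u ≤ t ∧ 2 * t + 3 * (R:ℝ) < TT (pw w) 0 (u + u)} ≤
    nu.real {w | DC (pw w) t r} + (2 * (R:ℝ) + 1) ^ 2 * (1 / 2) ^ R ∧
  nu.real {w | t + 3 * (R:ℝ) < TT (pw w) 0 u ∧ TT (pw w) 0 (u + u) ≤ 2 * t} ≤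
    nu.real {w | DC (pw w) t r} + (2 * (R:ℝ) + 1) ^ 2 * (1 / 2) ^ R

/-- 18. doubled clusters give concentration (uses `S_ONE2`), with `m = mz μ`.  Proof: `ζ0 = min ζ
((1-b)/2)`, `Dk` at `ζ' = ζ0 / 3`; `n = dd 0 v` large, `v_k = 2^k v`, `R_k = ⌈(4 * 2^k n)^(b+ζ')⌉₊`.
Lower side: `t_0 = mz μ v - M n^(b+ζ')`, `t_(k+1) = 2 t_k + 3 R_k`; then `2^k n / 50 ≤ t_k ≤
2^k (mz μ v - n^(b+ζ')) ≤ 4 * 2^k n` when `M` is a large constant, `P(T(0,v) ≤ t_0) ≤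
sum_(k<K) P(T(0,v_k) ≤ t_k, T(0,v_(k+1)) > t_(k+1)) + P(T(0,v_K) ≤ t_K)`, the last term tends to `0`
(`prob_lim`) and the sum is at most `sum_k (C (2^k n/50)^(-q) + exp. small) ≤ C' n^(-q)`,
`q = 2(1-b) - ζ'`.  Upper side: `P(T(0,v) > t_0) ≤ sum P(T(0,v_k) > t_k, T(0,v_(k+1)) ≤ t_(k+1)) +
P(T(0,v_K) > t_K)` with `t_0 = mz μ v + M n^(b+ζ')` and `t_(k+1) = 2 (t_k - 3 R_k)`.  `of_ev` for
small `n`. -/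
def S_DCS : Prop := ∀ (μ : ℝ × ℝ → ℝ) (b : ℝ), Shape μ → 0 < b → b < 1 → Dk b → Cn b

/-- 19. clusters near the limit shape at the times `t` and `2 t` are doubles (deterministic).  Proof:
as `S_GEO` (see `Pool.Agent.H76.SY.GEO`): for `v` in `A_t`, `v = (1+r) t x`, `μ x ≤ 1`, the point
`(1-r) (2 t) x` is near some `y` in `A_(2t)`; for `y` in `A_(2t)`, `y = (1+r) (2t) x`, the point
`(1-r) t x` is near some `v` in `A_t`; `|x| ≤ 22`. -/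
def S_GEO2 : Prop := ∀ (μ : ℝ × ℝ → ℝ), Shape μ → ∀ (w : Ed → ℝ) (t r : ℝ), 0 < t → 0 < r → r ≤ 1 →
  {x : ℝ × ℝ | ∃ v : ℤ × ℤ, TT w 0 v ≤ t ∧ |x.1 - (v.1 : ℝ)| ≤ 1 / 2 ∧
    |x.2 - (v.2 : ℝ)| ≤ 1 / 2} ⊆ ((1 + r) * t) • {x : ℝ × ℝ | μ x ≤ 1} →
  ((1 - r) * t) • {x : ℝ × ℝ | μ x ≤ 1} ⊆ {x : ℝ × ℝ | ∃ v : ℤ × ℤ, TT w 0 v ≤ t ∧
    |x.1 - (v.1 : ℝ)| ≤ 1 / 2 ∧ |x.2 - (v.2 : ℝ)| ≤ 1 / 2} →
  {x : ℝ × ℝ | ∃ v : ℤ × ℤ, TT w 0 v ≤ 2 * t ∧ |x.1 - (v.1 : ℝ)| ≤ 1 / 2 ∧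
    |x.2 - (v.2 : ℝ)| ≤ 1 / 2} ⊆ ((1 + r) * (2 * t)) • {x : ℝ × ℝ | μ x ≤ 1} →
  ((1 - r) * (2 * t)) • {x : ℝ × ℝ | μ x ≤ 1} ⊆ {x : ℝ × ℝ | ∃ v : ℤ × ℤ, TT w 0 v ≤ 2 * t ∧
    |x.1 - (v.1 : ℝ)| ≤ 1 / 2 ∧ |x.2 - (v.2 : ℝ)| ≤ 1 / 2} →
  ¬ DC w t (4 + 200 * (r * t))

end Pool.Agent.H30.SY
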