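import Pool.Agent.H30.SY.Stm

/-!
# First-passage percolation: round clusters
-/

set_option autoImplicit false

open MeasureTheory ProbabilityTheory Finset Filter
open scoped Topology Pointwise

namespace Pool.Agent.H30.SY

open Q70.Fp

/-- 20. a cluster near a dilate of the limit shape is symmetric (deterministic; uses `S_EVEN`).
Proof: as `S_GEO` (`Pool.Agent.H76.SY.GEO`) with `ρ` in place of `t`, plus `ρ ≤ 6 (2 M t + 1)`-like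
bound: for `x = (1 / mz μ e) e`, `e = (1, 0)`, `μ x = 1`, `|x| ≥ 1/3` by `mz_up`; `(1 - r) ρ x` is
within `1` of a vertex `y` with `TT w 0 y ≤ t`, so `(1 - r) ρ / 3 ≤ M t + 1` and `ρ ≤ 6 (M t + 1)`
as `r ≤ 1/2`.  Then `|y + v| ≤ 1 + 2 r ρ 22 ≤ 1 + 264 r (M t + 1)`. -/
def S_GEO3 : Prop := ∀ (μ : ℝ × ℝ → ℝ), Shape μ → ∀ (w : Ed → ℝ) (t r ρ M : ℝ), 0 < t → 0 < r →
  r ≤ 1 / 2 → 0 ≤ ρ → (∀ v : ℤ × ℤ, TT w 0 v ≤ t → (dd 0 v : ℝ) ≤ M * t) →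
  {x : ℝ × ℝ | ∃ v : ℤ × ℤ, TT w 0 v ≤ t ∧ |x.1 - (v.1 : ℝ)| ≤ 1 / 2 ∧
    |x.2 - (v.2 : ℝ)| ≤ 1 / 2} ⊆ ((1 + r) * ρ) • {x : ℝ × ℝ | μ x ≤ 1} →
  ((1 - r) * ρ) • {x : ℝ × ℝ | μ x ≤ 1} ⊆ {x : ℝ × ℝ | ∃ v : ℤ × ℤ, TT w 0 v ≤ t ∧
    |x.1 - (v.1 : ℝ)| ≤ 1 / 2 ∧ |x.2 - (v.2 : ℝ)| ≤ 1 / 2} →
  ¬ SB w t (1 + 264 * (r * (M * t + 1)))

/-- 21. the cluster lies in a ball.  Proof: `m = ⌈t⌉₊`; if `66 m < dd 0 v` and `TT 0 v ≤ t < 3 m`,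
then `exists_lt` gives a walk to `v` of weight `< 3 m` and `bad_of_exit` gives `Bad (pw w) 0 (66 m + 1)
(3 m)`; `bad_le`. -/
def S_BOX : Prop := ∀ t : ℝ, 1 ≤ t →
  nu.real {w : Ed → ℝ | ∃ v : ℤ × ℤ, 132 * t < (dd 0 v : ℝ) ∧ TT (pw w) 0 v ≤ t} ≤
    (1 / 2) ^ ⌈t⌉₊

end Pool.Agent.H30.SY
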