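import Pool.Agent.H30.SY.Stm

/-!
# First-passage percolation: boxes in which midpoints bisect
-/

set_option autoImplicit false

open MeasureTheory ProbabilityTheory Finset Filter
open scoped Topology Pointwise

namespace Pool.Agent.H30.SY

open Q70.Fp

/-- midpoints bisect up to `s` in the ball of radius `n` -/
def BS (w : Ed → ℝ) (n : ℕ) (s : ℝ) : Prop := ∀ x ∈ ball n 0, ∀ v ∈ ball n 0,
  |TT w x (x + v + v) - 2 * TT w x (x + v)| ≤ s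

/-- midpoints bisect with a probability bounded below (no rate) -/
def Bp (b : ℝ) : Prop := ∀ ζ : ℝ, 0 < ζ → ∃ c : ℝ, 0 < c ∧ ∀ᶠ n : ℕ in atTop,
  c ≤ nu.real {w : Ed → ℝ | BS (pw w) n ((n:ℝ) ^ (b + ζ))}

/-- 22. (uses `S_REV`).  Proof: on `BS n s`, `|T(y,y+v) - T(y+v,y+2v)| ≤ s` for `y = x + j v` (`BS` at
`(y, v)` and at `(y+2v, -v)`, both give half of `T(y,y+2v)`), so `|a_0 - a_j| ≤ j s` for `a_j =
T(x+jv, x+(j+1)v)`, `j ≤ 133 J`.  If `a_0 > m + 133 J s`, all `a_(133 i) > m`, `i < J`, so all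
`TB (66 |v|)` there are `> m`; these are independent (`133 |v| > 2 * 66 |v|`; see `indep_TB` of
`Pool.Agent.H69.FP.D` and `integral_prod_disj`) of probability `≤ 1/2 + 2/2^|v| ≤ 3/4`.  If
`a_0 < m - 133 J s`, all `a_(133 i) < m`, so all `TB < m` or some `T ≠ TB` (`local_le`): probability
`≤ (1/2)^J + 2 J/2^|v|`. -/
def S_U1 : Prop := ∀ (v x : ℤ × ℤ) (J n : ℕ) (s m : ℝ), 3 ≤ dd 0 v → 0 ≤ s →
  dd 0 x + (133 * J + 2) * dd 0 v ≤ n →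
  nu.real {w | TT (pw w) 0 v < m} ≤ 1 / 2 → nu.real {w | m < TT (pw w) 0 v} ≤ 1 / 2 →
  nu.real {w | BS (pw w) n s ∧ 133 * (J:ℝ) * s < |TT (pw w) x (x + v) - m|} ≤
    2 * (3 / 4) ^ J + 4 * J * (1 / 2) ^ dd 0 v

/-- the output of the second step -/
def Um (m : ℤ × ℤ → ℝ) (b : ℝ) : Prop := ∀ ζ : ℝ, 0 < ζ → ∃ c : ℝ, 0 < c ∧ ∀ᶠ n : ℕ in atTop,
  c ≤ nu.real {w : Ed → ℝ | ∀ x ∈ ball n 0, ∀ v ∈ ball n 0,
    |TT (pw w) x (x + v) - m v| ≤ (n:ℝ) ^ (b + ζ) ∧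
    |TT (pw w) x (x + v + v) - 2 * TT (pw w) x (x + v)| ≤ (n:ℝ) ^ (b + ζ)}

/-- 23. (uses `S_U1` and the medians `hMED`, proved in `Pool.Agent.H29.SY.MED`).  Proof: `m v` = the
median for `dd 0 v ≥ 132`, `0` otherwise.  Given `ζ`, `ζ1 = ζ/4`, `δ` small, `N = ⌈n^(1+δ)⌉₊`,
`J = ⌊n^(δ/2)⌋₊`, `s = N^(b+ζ1)`, so that `133 J s ≤ n^(b+ζ)` and `n + (133 J + 2) n ≤ N` for large `n`.
On `BS N s` the second inequality holds for `x, v` in `ball n 0`; the first fails for some `x, v` with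
`|v| ≥ n^b` with probability at most `card^2 (2 (3/4)^J + 4 J (1/2)^(n^b))` by `S_U1`, and for `|v| <
n^b`, `T(x,x+v) < 3 ⌈n^b⌉₊` (`straight`, union) and `0 ≤ m v ≤ 3 |v|`.  The constant is `c / 2`. -/
def S_U2 : Prop := (∀ v : ℤ × ℤ, 132 ≤ dd 0 v → ∃ c : ℝ,
    3 * ((dd 0 v / 66 : ℕ) : ℝ) ≤ c ∧ c ≤ 3 * (dd 0 v : ℝ) ∧
    nu.real {w | TT (pw w) 0 v < c} ≤ 1 / 2 ∧ nu.real {w | c < TT (pw w) 0 v} ≤ 1 / 2) →
  ∀ b : ℝ, 0 < b → b < 1 → Bp b → ∃ m : ℤ × ℤ → ℝ, Um m b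

/-- 24. Proof: at `n = 2 |v|` large the event of `Um` has positive probability, so it is not empty and
`|m (v+v) - 2 m v| ≤ 4 (2|v|)^(b+ζ)`; small `v` by a constant.  With `prob_lim` (probability close to
`1`) and the event of `Um` (probability at least `c`) some `w` is in both, so `m (2^k v) / 2^k → mz μ v`;
telescoping: `|m v - mz μ v| ≤ C |v|^(b+ζ)` (take `ζ ≤ (1-b)/2`).  For `u, v` in `ball n 0`, `v - u` is
in `ball (2n) 0`: use the event of `Um` at `2n` and `ζ/2`. -/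
def S_U3 : Prop := ∀ (μ : ℝ × ℝ → ℝ) (b : ℝ) (m : ℤ × ℤ → ℝ), Shape μ → 0 < b → b < 1 → Um m b →
  ∀ ζ : ℝ, 0 < ζ → ∃ c : ℝ, 0 < c ∧ ∀ᶠ n : ℕ in atTop,
    c ≤ nu.real {w : Ed → ℝ | ∀ u ∈ ball n 0, ∀ v ∈ ball n 0,
      |TT (pw w) u v - mz μ (v - u)| ≤ (n:ℝ) ^ (b + ζ)}

end Pool.Agent.H30.SY
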