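import Pool.Agent.H30.SY.Stm

/-!
# First-passage percolation: boxes with nearly symmetric passage times
-/

set_option autoImplicit false

open MeasureTheory ProbabilityTheory Finset Filter
open scoped Topology Pointwise

namespace Pool.Agent.H30.SY

open Q70.Fp

/-- opposite passage times agree up to `s` in the ball of radius `n` -/
def RS (w : Ed → ℝ) (n : ℕ) (s : ℝ) : Prop := ∀ x ∈ ball n 0, ∀ v ∈ ball n 0,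
  |TT w x (x + v) - TT w x (x - v)| ≤ s

/-- opposite passage times agree with a probability bounded below (no rate) -/
def Rp (b : ℝ) : Prop := ∀ ζ : ℝ, 0 < ζ → ∃ c : ℝ, 0 < c ∧ ∀ᶠ n : ℕ in atTop,
  c ≤ nu.real {w : Ed → ℝ | RS (pw w) n ((n:ℝ) ^ (b + ζ))}

/-- `m` is a median of `T(0, v)` -/
def Mdn (v : ℤ × ℤ) (m : ℝ) : Prop :=
  nu.real {w : Ed → ℝ | TT (pw w) 0 v < m} ≤ 1 / 2 ∧
  nu.real {w : Ed → ℝ | m < TT (pw w) 0 v} ≤ 1 / 2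

/-- 25. as `S_U1` (`Pool.Agent.H50.SY.U1`), uses `S_REV`: on `RS n s`, `|T(y,y+v) - T(y+v,y+2v)| ≤ s`
(`RS` at the point `y + v` with `v`, and `S_REV`). -/
def S_R1 : Prop := ∀ (v x : ℤ × ℤ) (J n : ℕ) (s m : ℝ), 3 ≤ dd 0 v → 0 ≤ s →
  dd 0 x + (133 * J + 2) * dd 0 v ≤ n → Mdn v m →
  nu.real {w | RS (pw w) n s ∧ 133 * (J:ℝ) * s < |TT (pw w) x (x + v) - m|} ≤
    2 * (3 / 4) ^ J + 4 * J * (1 / 2) ^ dd 0 v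

/-- the output of the second step -/
def Rm (m : ℤ × ℤ → ℝ) (b : ℝ) : Prop := ∀ ζ : ℝ, 0 < ζ → ∃ c : ℝ, 0 < c ∧ ∀ᶠ n : ℕ in atTop,
  c ≤ nu.real {w : Ed → ℝ | ∀ x ∈ ball n 0, ∀ v ∈ ball n 0,
    |TT (pw w) x (x + v) - m v| ≤ (n:ℝ) ^ (b + ζ)}

/-- 26. as `S_U2` (`Pool.Agent.H40.SY.U2`, `Pool.Agent.H29.SY.U2`), uses `S_R1` and the medians -/
def S_R2 : Prop := (∀ v : ℤ × ℤ, 132 ≤ dd 0 v → ∃ c : ℝ,
    3 * ((dd 0 v / 66 : ℕ) : ℝ) ≤ c ∧ c ≤ 3 * (dd 0 v : ℝ) ∧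
    nu.real {w | TT (pw w) 0 v < c} ≤ 1 / 2 ∧ nu.real {w | c < TT (pw w) 0 v} ≤ 1 / 2) →
  ∀ b : ℝ, 0 < b → b < 1 → Rp b → ∃ m : ℤ × ℤ → ℝ, (∀ v, 132 ≤ dd 0 v → Mdn v (m v)) ∧ Rm m b

/-- 27. one point, upper side (uses `S_REV`).  Proof: `J` a large constant (depending on `c`), `N =
(133 J + 3) n`, `s = N^(b+ζ/2)`, so `133 J s ≤ n^(b+ζ)` for large `n`.  On `RS N s` the `J` numbers
`a_(133 i) = T(133 i v, (133 i + 1) v)`, `i < J`, are within `133 J s` of each other, and equal to the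
independent `X_i = TB (66 n)` outside probability `2 J/2^n`.  So `c - 2 J/2^n ≤ P(all X_i ≤ m + 133 J s)
+ P(all X_i > m) ≤ (1 - p)^J + (3/4)^J`, `p = P(X > m + 133 J s) ≥ P(T > m + n^(b+ζ))`.  If `p > 1/4`,
the right side is `≤ 2 (3/4)^J < c/2`, a contradiction.  (`indep_set` in `Pool.Agent.H50.SY.U1`.) -/
def S_R3 : Prop := ∀ b : ℝ, 0 < b → b < 1 → Rp b → ∀ ζ : ℝ, 0 < ζ → ∀ᶠ n : ℕ in atTop,
  ∀ v : ℤ × ℤ, dd 0 v = n → ∀ m : ℝ, Mdn v m →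
    nu.real {w | m + (n:ℝ) ^ (b + ζ) < TT (pw w) 0 v} ≤ 1 / 4

/-- 28. log-concavity of the upper tail bounds the mean.  Proof: `S(x) = P(x ≤ T)`, `S(m) ≥ 1/2`,
`S(m + 2 r) ≤ 1/4`; for `k ≥ 1`, `S(m)^(1-1/k) S(m + 2 r k)^(1/k) ≤ S(m + 2 r)` gives `S(m + 2 r k) ≤
2^(-k)`; `E T ≤ m + sum_k 2 r S(m + 2 r k) ≤ m + 4 r` (layer cake, or `T - m ≤ 2 r sum_(k ≥ 0)
1(T ≥ m + 2 r k)`). -/
def S_R4 : Prop := (∀ (v : ℤ × ℤ) (s t θ : ℝ), 0 < θ → θ < 1 →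
    nu.real {w | s ≤ TT (pw w) 0 v} ^ θ * nu.real {w | t ≤ TT (pw w) 0 v} ^ (1 - θ) ≤
      nu.real {w | θ * s + (1 - θ) * t ≤ TT (pw w) 0 v}) →
  ∀ (v : ℤ × ℤ) (m r : ℝ), 0 < r → Mdn v m →
    nu.real {w | m + r < TT (pw w) 0 v} ≤ 1 / 4 → Q69.FM.hm v ≤ m + 6 * r

end Pool.Agent.H30.SY
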